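import Mathlib

namespace Pool.Agent.Results.MP_bde484_co.Fails

def DistDom {V : Type} (G : SimpleGraph V) (d : ℕ) (X : Finset V) : Prop :=
  ∀ u, u ∉ X → ∃ x ∈ X, G.dist u x ≤ d

def Packing {V : Type} (G : SimpleGraph V) (p : ℕ) (X : Finset V) : Prop :=
  ∀ u ∈ X, ∀ v ∈ X, u ≠ v → p + 1 ≤ G.dist u v

def off (v : Fin 61) : ℕ := (v.val - 1) % 12

def br (v : Fin 61) : ℕ := (v.val - 1) / 12

def par (v : Fin 61) : ℕ :=
  if off v = 0 then 0 else if off v = 7 then v.val - 6 else v.val - 1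

def dep (v : Fin 61) : ℕ :=
  if v.val = 0 then 0 else if off v < 7 then off v + 1 else off v - 4

def adj (u v : Fin 61) : Bool :=
  decide (u.val ≠ v.val) && (decide (par u = v.val) || decide (par v = u.val))

def T : SimpleGraph (Fin 61) where
  Adj u v := adj u v = true
  symm := ⟨fun u v h => by
    simp only [adj, Bool.and_eq_true, Bool.or_eq_true, decide_eq_true_eq] at h ⊢
    exact ⟨h.1.symm, h.2.symm⟩⟩
  loopless := ⟨fun u h => by simp [adj] at h⟩

instance : DecidableRel T.Adj := fun u v => inferInstanceAs (Decidable (adj u v = true))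

def leaf (l : Fin 10) : Fin 61 := ⟨7 + 12 * (l.val / 2) + 5 * (l.val % 2), by omega⟩

def phi (l : Fin 10) (v : Fin 61) : ℕ :=
  if v.val = 0 ∨ br v ≠ l.val / 2 then 7
  else if off v < 2 ∨ (off v - 2) / 5 = l.val % 2 then 7 - dep v else dep v + 3

lemma f1 : ∀ u v : Fin 61, adj u v = true → ∀ l, phi l u ≤ phi l v + 1 := by decide +kernel

lemma f2 : ∀ (l : Fin 10) (y : Fin 61), phi l y ≤ 6 → br y = l.val / 2 ∧
    ∀ k : Fin 10, phi k y ≤ 6 → l = k ∨ dep y ≤ 3 := by decide +kernel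

lemma f3 : ∀ l, phi l (leaf l) = 0 := by decide +kernel

lemma f4 : ∀ v : Fin 61, v ≠ 0 → ∃ u, adj v u = true ∧ dep u < dep v := by decide +kernel

lemma f5 : ∑ v, T.degree v = 120 := by decide +kernel

lemma f6 : ∀ i ∈ Finset.range 5,
    (Finset.univ.filter fun l : Fin 10 => l.val / 2 ≠ i ∨ l.val % 2 = 0).card = 9 := by
  decide +kernel

lemma f7 : ∀ v : Fin 61, br v ∈ Finset.range 5 := by decide +kernel

lemma walk0 (v : Fin 61) : ∃ p : T.Walk v 0, p.length ≤ dep v := by
  induction h : dep v using Nat.strong_induction_on generalizing v with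
  | _ k ih =>
    by_cases e : v = 0
    · subst e
      exact ⟨SimpleGraph.Walk.nil, Nat.zero_le _⟩
    · obtain ⟨u, h1, h2⟩ := f4 v e
      obtain ⟨p, hp⟩ := ih (dep u) (h ▸ h2) u rfl
      refine ⟨SimpleGraph.Walk.cons h1 p, ?_⟩
      simp only [SimpleGraph.Walk.length_cons]
      omega

lemma conn : T.Connected := by
  have h : ∀ u, T.Reachable u 0 := fun u => ⟨(walk0 u).choose⟩
  exact { preconnected := fun u v => (h u).trans (h v).symm, nonempty := ⟨0⟩ }

lemma tree : T.IsTree := by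
  rw [SimpleGraph.isTree_iff_connected_and_card]
  refine ⟨conn, ?_⟩
  have h1 := T.sum_degrees_eq_twice_card_edges
  rw [f5] at h1
  have h2 : Nat.card T.edgeSet = T.edgeFinset.card := by
    rw [Nat.card_eq_fintype_card, SimpleGraph.edgeFinset_card]
  rw [h2, Nat.card_eq_fintype_card, Fintype.card_fin]
  omega

lemma near (u v : Fin 61) : T.dist u v ≤ dep u + dep v := by
  obtain ⟨p, hp⟩ := walk0 u
  obtain ⟨q, hq⟩ := walk0 v
  have := SimpleGraph.dist_le (p.append q.reverse)
  simp only [SimpleGraph.Walk.length_append, SimpleGraph.Walk.length_reverse] at this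
  omega

lemma far (l : Fin 10) (u v : Fin 61) : phi l v ≤ phi l u + T.dist u v := by
  obtain ⟨p, hp⟩ := conn.exists_walk_length_eq_dist u v
  rw [← hp]
  clear hp
  induction p with
  | nil => simp
  | cons h q ih =>
    have := f1 _ _ (T.adj_symm h) l
    simp only [SimpleGraph.Walk.length_cons]
    omega

lemma nine (X : Finset (Fin 61)) (h1 : DistDom T 6 X) (h2 : Packing T 6 X) : 9 ≤ X.card := by
  have hg : ∀ l, ∃ x ∈ X, phi l x ≤ 6 := by
    intro l
    by_cases h : leaf l ∈ X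
    · exact ⟨_, h, by rw [f3]; omega⟩
    · obtain ⟨x, hx, hd⟩ := h1 _ h
      have := far l (leaf l) x
      rw [f3] at this
      exact ⟨x, hx, by omega⟩
  choose g hX hp using hg
  obtain ⟨i, hi, hq⟩ : ∃ i ∈ Finset.range 5, ∀ y ∈ X, dep y ≤ 3 → br y = i := by
    by_cases h : ∃ q ∈ X, dep q ≤ 3
    · obtain ⟨q, hq, hd⟩ := h
      refine ⟨br q, f7 q, fun y hy hy' => ?_⟩
      by_contra hne
      have := h2 y hy q hq (fun e => hne (e ▸ rfl))
      have := near y q
      omega
    · exact ⟨0, by decide, fun y hy hy' => absurd ⟨y, hy, hy'⟩ h⟩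
  rw [← f6 i hi]
  apply Finset.card_le_card_of_injOn g (fun l _ => hX l)
  intro l hl k hk e
  have a1 := (Finset.mem_filter.mp hl).2
  have a2 := (Finset.mem_filter.mp hk).2
  obtain ⟨b1, b2⟩ := f2 l (g l) (hp l)
  have b3 := (f2 k (g k) (hp k)).1
  rw [← e] at b3
  rcases b2 k (e ▸ hp k) with h | h
  · exact h
  · have := hq _ (hX l) h
    exact Fin.ext (by omega)

theorem result : ¬ ∀ (p d n : ℕ) (G : SimpleGraph (Fin n)), 3 ≤ p → p ≤ d → G.IsTree →
    ∃ X : Finset (Fin n), DistDom G d X ∧ Packing G p X ∧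
      (X.card : ℝ) ≤ (n - 2 * Real.sqrt n + d + 1) / d := by
  intro h
  obtain ⟨X, h1, h2, h3⟩ := h 6 6 61 T (by norm_num) le_rfl tree
  have h4 : (9 : ℝ) ≤ X.card := by exact_mod_cast nine X h1 h2
  have h5 : (7 : ℝ) < Real.sqrt 61 := Real.lt_sqrt_of_sq_lt (by norm_num)
  push_cast at h3
  linarith

end Pool.Agent.Results.MP_bde484_co.Fails
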